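import Pool.Agent.W622.BK.Stm

/-! # Bloch-Kato Lie algebras: trilinear form of the base case -/

set_option autoImplicit false

namespace Pool.Agent.W32.BK

open Module
open Pool.Agent.W622.BK

universe u

section

variable {k : Type u} [Field k] {E : Type u} [AddCommGroup E] [Module k E]

/-- the rotation `rot σ a e e' = σ e e' a` -/
def rot (σ : E →ₗ[k] E →ₗ[k] E →ₗ[k] k) : E →ₗ[k] E →ₗ[k] E →ₗ[k] k where
  toFun a := σ.compr₂ (LinearMap.applyₗ a)
  map_add' a b := by
    ext e e'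
    simp only [LinearMap.compr₂_apply, LinearMap.applyₗ_apply_apply, LinearMap.add_apply, map_add]
  map_smul' c a := by
    ext e e'
    simp only [LinearMap.compr₂_apply, LinearMap.applyₗ_apply_apply, LinearMap.smul_apply, map_smul,
      RingHom.id_apply]

theorem rot_apply (σ : E →ₗ[k] E →ₗ[k] E →ₗ[k] k) (a e e' : E) : rot σ a e e' = σ e e' a := rfl

/-- difference of trilinear forms -/
def df (σ τ : E →ₗ[k] E →ₗ[k] E →ₗ[k] k) : E →ₗ[k] E →ₗ[k] E →ₗ[k] k := σ + (-1 : k) • τ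

theorem df_apply (σ τ : E →ₗ[k] E →ₗ[k] E →ₗ[k] k) (a e e' : E) :
    df σ τ a e e' = σ a e e' - τ a e e' := by
  unfold df
  simp only [LinearMap.add_apply, LinearMap.smul_apply, smul_eq_mul]
  ring

theorem mem_df (R : Submodule k (E →ₗ[k] E →ₗ[k] k)) {a b c : E →ₗ[k] E →ₗ[k] k} (ha : a ∈ R)
    (hb : b ∈ R) (h : ∀ e e', c e e' = a e e' - b e e') : c ∈ R := by
  have h' : c = a + (-1 : k) • b := by
    ext e e'
    rw [h]
    simp only [LinearMap.add_apply, LinearMap.smul_apply, smul_eq_mul]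
    ring
  rw [h']
  exact R.add_mem ha (R.smul_mem _ hb)

end

theorem t_TRI : Pool.Agent.W622.BK.S_TRI.{u} := by
  intro hPRJ hABL hJAC hJACA hREP k _ L _ _ E _ _ _ j X h2 hj hq τ hτX hcyc
  obtain ⟨π, hπ1, hπ2, hπ3⟩ := hPRJ k E X
  obtain ⟨τ₁, τ₂, hτ, hτ1, hτ2⟩ := hcyc
  -- membership in `X` of invariant functionals
  have hX : ∀ f : E →ₗ[k] k, (∀ e, f (π e) = f e) → f ∈ X := by
    intro f hf
    have h : f ∘ₗ π = f := by
      ext e
      exact hf e
    rw [← h]
    exact hπ2 f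
  have hτπ : ∀ a e e', τ (π a) e e' = τ a e e' := by
    intro a e e'
    have h := hπ1 _ (hτX e e')
    have h' := LinearMap.congr_fun h a
    exact h'
  have hτ1a : ∀ a e', τ₁ a a e' = 0 := fun a e' => (hτ1 e').1 a
  have hτ2a : ∀ a e, τ₂ a e e = 0 := fun a e => (hτ2 a).1 e
  obtain ⟨σ₁, σ₂, hσ, hσ1a, hσ1π, hσ2a, hσ2π⟩ := hABL k E π τ τ₁ τ₂ h2 hπ3 hτπ hτ hτ1a hτ2a
  -- skewness
  have skew : ∀ (f : E →ₗ[k] E →ₗ[k] k), (∀ a, f a a = 0) → ∀ a e, f a e = - f e a := by
    intro f hf a e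
    have h := hf (a + e)
    simp only [map_add, LinearMap.add_apply] at h
    rw [hf a, hf e] at h
    linear_combination h
  have skew1 : ∀ (f : E →ₗ[k] E →ₗ[k] E →ₗ[k] k), (∀ a e', f a a e' = 0) → ∀ a e e',
      f a e e' = - f e a e' := by
    intro f hf a e e'
    exact skew (f.compr₂ (LinearMap.applyₗ e')) (fun a => hf a e') a e
  have skew2 : ∀ (f : E →ₗ[k] E →ₗ[k] E →ₗ[k] k), (∀ a e, f a e e = 0) → ∀ a e e',
      f a e e' = - f a e' e := by
    intro f hf a e e'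
    exact skew (f a) (fun e => hf a e) e e'
  -- the claim
  have claim : ∀ z, σ₁.compr₂ (LinearMap.applyₗ z) + σ₂ z ∈ Rj j := by
    intro z
    have h : σ₁.compr₂ (LinearMap.applyₗ z) + σ₂ z = τ₁.compr₂ (LinearMap.applyₗ z) + τ₂ z := by
      ext a e
      simp only [LinearMap.compr₂_apply, LinearMap.applyₗ_apply_apply, LinearMap.add_apply]
      have hα : ∀ a e e', (df τ₁ σ₁) a e e' = (df σ₂ τ₂) a e e' := by
        intro a e e'
        simp only [df_apply]
        have h1 := hτ a e e'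
        have h2' := hσ a e e'
        linear_combination h2' - h1
      have hα1 : ∀ a e', (df τ₁ σ₁) a a e' = 0 := by
        intro a e'
        simp only [df_apply]
        rw [hτ1a, hσ1a, sub_zero]
      have hα2 : ∀ a e, (df τ₁ σ₁) a e e = 0 := by
        intro a e
        rw [hα]
        simp only [df_apply]
        rw [hτ2a, hσ2a, sub_zero]
      have c1 := skew2 (df τ₁ σ₁) hα2 a e z
      have c2 := skew1 (df τ₁ σ₁) hα1 a z e
      have c3 := hα z a e
      simp only [df_apply] at c1 c2 c3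
      linear_combination (-1 : k) * c1 + c2 + (-1 : k) * c3
    rw [h]
    exact (Rj j).add_mem (hτ1 z) (hτ2 z)
  have hσ2z : ∀ z, σ₂ (π z) = σ₂ z := by
    intro z
    ext e e'
    exact hσ2π z e e'
  have claim0 : ∀ z, π z = 0 → σ₁.compr₂ (LinearMap.applyₗ z) ∈ Rj j := by
    intro z hz
    have h := claim z
    have h0 : σ₂ z = 0 := by
      rw [← hσ2z z, hz, map_zero]
    rw [h0, add_zero] at h
    exact h
  have hσ1π2 : ∀ a e e', σ₁ a (π e) e' = σ₁ a e e' := by
    intro a e e'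
    rw [skew1 σ₁ hσ1a a (π e) e', hσ1π, skew1 σ₁ hσ1a a e e']
  obtain ⟨κ, hκ⟩ : ∃ κ : E →ₗ[k] E →ₗ[k] E →ₗ[k] k, ∀ a e e', κ a e e' = σ₁ a e (π e') :=
    ⟨σ₁.compr₂ (LinearMap.lcomp k k π), fun a e e' => rfl⟩
  obtain ⟨s', hs'⟩ : ∃ s' : E →ₗ[k] E →ₗ[k] E →ₗ[k] k, ∀ a e e',
      s' a e e' = σ₁ a e (e' - π e') := by
    refine ⟨df σ₁ κ, fun a e e' => ?_⟩
    simp only [df_apply, hκ, map_sub]
  obtain ⟨ρ, hρ⟩ : ∃ ρ : E →ₗ[k] E →ₗ[k] E →ₗ[k] k, ∀ a e e',
      ρ a e e' = σ₂ a e e' + σ₁ e e' (π a) := by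
    refine ⟨σ₂ + (rot σ₁) ∘ₗ π, fun a e e' => ?_⟩
    simp only [LinearMap.add_apply, LinearMap.comp_apply, rot_apply]
  have hs'R : ∀ e', s'.compr₂ (LinearMap.applyₗ e') ∈ Rx (Rj j) X := by
    intro e'
    have h : s'.compr₂ (LinearMap.applyₗ e') = σ₁.compr₂ (LinearMap.applyₗ (e' - π e')) := by
      ext a e
      simp only [LinearMap.compr₂_apply, LinearMap.applyₗ_apply_apply, hs']
    rw [h]
    refine ⟨claim0 _ ?_, fun a => hX _ fun e => ?_⟩
    · rw [map_sub, hπ3, sub_self]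
    · simp only [LinearMap.compr₂_apply, LinearMap.applyₗ_apply_apply]
      exact hσ1π2 _ _ _
  have hρR : ∀ a, ρ a ∈ Rj j := by
    intro a
    have h : ρ a = σ₁.compr₂ (LinearMap.applyₗ (π a)) + σ₂ (π a) := by
      ext e e'
      simp only [LinearMap.compr₂_apply, LinearMap.applyₗ_apply_apply, LinearMap.add_apply, hρ,
        hσ2z]
      ring
    rw [h]
    exact claim _
  have hρX : ∀ e e', (ρ.flip e).flip e' ∈ X := by
    intro e e'
    refine hX _ fun a => ?_
    simp only [LinearMap.flip_apply, hρ, hσ2π, hπ3]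
  have hκa : ∀ a e', κ a a e' = 0 := fun a e' => by rw [hκ, hσ1a]
  have hdec : ∀ a e e', κ a e e' - κ e e' a = (df τ₁ s') a e e' + (df τ₂ ρ) a e e' := by
    intro a e e'
    simp only [df_apply, hκ, hs', hρ, map_sub]
    have h1 := hτ a e e'
    have h2' := hσ a e e'
    linear_combination h1 - h2'
  have hBr : Br3 j κ = 0 := by
    refine hJAC hJACA k L E j κ hκa ⟨df τ₁ s', df τ₂ ρ, hdec, fun e' => ?_, fun a => ?_⟩
    · refine mem_df _ (hτ1 e') (hs'R e').1 fun a e => ?_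
      simp only [LinearMap.compr₂_apply, LinearMap.applyₗ_apply_apply, df_apply]
    · exact mem_df _ (hτ2 a) (hρR a) fun e e' => df_apply _ _ _ _ _
  obtain ⟨s, p, hsp, hs, hp, hpX⟩ := hREP k L E j X h2 hj hq κ hκa
    (fun a e => hX _ fun e' => by rw [hκ, hκ, hπ3])
    (fun a e' => hX _ fun e => by
      simp only [LinearMap.flip_apply, hκ]
      exact hσ1π2 _ _ _)
    (fun e e' => hX _ fun a => by
      simp only [LinearMap.flip_apply, hκ]
      exact hσ1π _ _ _) hBr
  refine ⟨s' + s, ρ + p, fun a e e' => ?_, fun e' => ?_, fun a => ?_, fun e e' => ?_⟩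
  · have h1 := hsp a e e'
    have h2' := hdec a e e'
    have h3 := hτ a e e'
    simp only [LinearMap.add_apply, df_apply] at h1 h2' ⊢
    linear_combination h3 + h1 - h2'
  · have h : (s' + s).compr₂ (LinearMap.applyₗ e') =
        s'.compr₂ (LinearMap.applyₗ e') + s.compr₂ (LinearMap.applyₗ e') := by
      ext a e
      simp only [LinearMap.compr₂_apply, LinearMap.applyₗ_apply_apply, LinearMap.add_apply]
    rw [h]
    exact (Rx (Rj j) X).add_mem (hs'R e') (hs e')
  · rw [LinearMap.add_apply]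
    exact (Rj j).add_mem (hρR a) (hp a)
  · have h : ((ρ + p).flip e).flip e' = (ρ.flip e).flip e' + (p.flip e).flip e' := by
      ext a
      simp only [LinearMap.flip_apply, LinearMap.add_apply]
    rw [h]
    exact X.add_mem (hρX e e') (hpX e e')

end Pool.Agent.W32.BK
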